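import Pool.Agent.Run7.h881.VL.Round

set_option linter.unusedSectionVars false

/-!
Rounding local distributions on vertex covers: carving out walks of low growth.
-/

namespace Pool.Agent.Run7.h881.VL

open Finset

variable {V : Type*} [Fintype V] [DecidableEq V]
variable {G : SimpleGraph V} {k : ℕ} {E : Finset V → (Finset V → ℝ) → ℝ}

/-- the parity bit of `j` -/
def par : ℕ → Bool
  | 0 => false
  | j + 1 => xor (par j) true

open Classical in
/-- the vertices reached from `v` by a walk of exactly `j` steps in `G[M]` -/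
noncomputable def sph (G : SimpleGraph V) (M : Finset V) (v : V) : ℕ → Finset V
  | 0 => {v}
  | j + 1 => M.filter fun w => ∃ u ∈ sph G M v j, G.Adj u w

lemma sph_subset {M : Finset V} {v : V} (hv : v ∈ M) (j : ℕ) : sph G M v j ⊆ M := by
  classical
  cases j with
  | zero => simpa [sph] using hv
  | succ j => exact filter_subset _ _

lemma sph_err (hE : Local G k E) (hk : 3 ≤ k) {M : Finset V} {τ : ℝ}
    (hM : ∀ u ∈ M, E {u} (X u) ≤ 1 / 2 + τ) {v : V} (hv : v ∈ M) (j : ℕ) :
    ∀ y ∈ sph G M v j, E {v, y} (D v y (par j)) ≤ 2 * τ * j := by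
  classical
  induction j with
  | zero =>
    intro y hy
    simp only [sph, mem_singleton] at hy
    subst hy
    have : D y y (par 0) = fun _ => 0 := by
      funext z
      simp [D, par]
    rw [this, hE.zero]
    simp
  | succ j ih =>
    intro y hy
    push_cast
    obtain ⟨hyM, u, hu, huy⟩ := mem_filter.mp hy
    have h0 := ih u hu
    have h1 := hE.err_tri hk v u y (par j) true
    have h2 := hE.err_edge (by omega) huy
    have h3 := hM u (sph_subset hv j hu)
    have h4 := hM y hyM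
    have h5 : par (j + 1) = xor (par j) true := rfl
    rw [h5]
    linarith

lemma sph_indep (hE : Local G k E) (hk : 3 ≤ k) {M : Finset V} {τ : ℝ} (hτ : 0 ≤ τ) {l : ℕ}
    (hM : ∀ u ∈ M, E {u} (X u) ≤ 1 / 2 + τ) (hτl : τ * (4 * l + 2) < 1) {v : V} (hv : v ∈ M)
    {j : ℕ} (hj : j ≤ l) {u w : V} (hu : u ∈ sph G M v j) (hw : w ∈ sph G M v j) :
    ¬ G.Adj u w := by
  classical
  intro huw
  have h1 := sph_err hE hk hM hv j u hu
  have h2 := sph_err hE hk hM hv j w hw
  have h3 := hE.err_tri hk u v w (par j) (par j)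
  rw [Bool.xor_self] at h3
  rw [Local.err_symm (E := E) v u] at h1
  have h4 := hE.err_edge (by omega) huw
  have h5 := hM u (sph_subset hv j hu)
  have h6 := hM w (sph_subset hv j hw)
  have hS : ({u, w} : Finset V).card ≤ k := card_le_two.trans (by omega)
  have h7 : E {u, w} (D u w false) + E {u, w} (D u w true) = 1 := by
    rw [← hE.add, ← hE.one {u, w} hS]
    refine hE.congr' _ fun z _ => ?_
    unfold D
    generalize (xor (decide (u ∈ z)) (decide (w ∈ z))) = b
    cases b <;> simp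
  have h8 : (j : ℝ) ≤ l := by exact_mod_cast hj
  have h9 : τ * j ≤ τ * l := mul_le_mul_of_nonneg_left h8 hτ
  linarith

/-- the middle part: vertices of mass close to `1/2`. -/
lemma mid' (hE : Local G k E) (hk : 3 ≤ k) {τ : ℝ} (hτ : 0 ≤ τ) {M : Finset V} {l q : ℕ}
    (hq : 1 ≤ q) (hM : ∀ u ∈ M, 1 / 2 - τ ≤ E {u} (X u) ∧ E {u} (X u) ≤ 1 / 2 + τ)
    (hτl : τ * (4 * l + 2) < 1) (hτq : 4 * τ * (q + 1) ≤ 1) (hτ3 : 4 * τ * l + 3 * τ ≤ 1 / 2)
    (hn : Fintype.card V ≤ q ^ l * (k - 2)) :
    ∀ (m : ℕ) (M' : Finset V), M' ⊆ M → M'.card = m → ∃ T ⊆ M',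
      (∀ u ∈ M', ∀ v ∈ M', G.Adj u v → u ∈ T ∨ v ∈ T) ∧
      (T.card : ℝ) ≤ ∑ v ∈ M', (E {v} (X v) + (1 / 2 - 3 * τ)) := by
  classical
  intro m
  induction m using Nat.strong_induction_on with
  | _ m ih =>
  intro M' hM' hm
  have hMu : ∀ u ∈ M', E {u} (X u) ≤ 1 / 2 + τ := fun u hu => (hM u (hM' hu)).2
  by_cases hA : ∃ v ∈ M', ∃ j, j < l ∧ (sph G M' v j).Nonempty ∧
      (sph G M' v (j + 1)).card ≤ q * (sph G M' v j).card
  · obtain ⟨v, hv, j, hjl, hne, hj2⟩ := hA
    set P := sph G M' v j with hP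
    set Q := sph G M' v (j + 1) with hQ
    have hPM : P ⊆ M' := sph_subset hv j
    have hQM : Q ⊆ M' := sph_subset hv (j + 1)
    have hPind : ∀ a ∈ P, ∀ b ∈ P, ¬ G.Adj a b := fun a ha b hb =>
      sph_indep hE hk hτ hMu hτl hv hjl.le ha hb
    have hstep : ∀ a ∈ P, ∀ b ∈ M', G.Adj a b → b ∈ Q := by
      intro a ha b hb hab
      exact mem_filter.mpr ⟨hb, a, ha, hab⟩
    have hdis : Disjoint P Q := by
      rw [Finset.disjoint_left]
      intro a ha haQ
      obtain ⟨_, b, hb, hba⟩ := mem_filter.mp haQ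
      exact hPind b hb a ha hba
    have hPQ : P ∪ Q ⊆ M' := union_subset hPM hQM
    obtain ⟨T2, hT2, hc2, hs2⟩ := ih (M' \ (P ∪ Q)).card
      (by rw [← hm]; exact card_lt_card (sdiff_ssubset hPQ (hne.mono subset_union_left)))
      (M' \ (P ∪ Q)) (sdiff_subset.trans hM') rfl
    refine ⟨Q ∪ T2, union_subset hQM (hT2.trans sdiff_subset), ?_, ?_⟩
    · intro a ha b hb hab
      simp only [mem_union]
      by_cases haP : a ∈ P
      · right; left; exact hstep a haP b hb hab
      · by_cases hbP : b ∈ P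
        · left; left; exact hstep b hbP a ha hab.symm
        · by_cases haQ : a ∈ Q
          · left; left; exact haQ
          · by_cases hbQ : b ∈ Q
            · right; left; exact hbQ
            · rcases hc2 a (mem_sdiff.mpr ⟨ha, by simp [haP, haQ]⟩) b
                (mem_sdiff.mpr ⟨hb, by simp [hbP, hbQ]⟩) hab with h | h
              · left; right; exact h
              · right; right; exact h
    · have hcard : ((Q ∪ T2).card : ℝ) ≤ Q.card + T2.card := by
        exact_mod_cast card_union_le Q T2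
      have hsplit : ∑ v ∈ M', (E {v} (X v) + (1 / 2 - 3 * τ)) =
          ∑ v ∈ P ∪ Q, (E {v} (X v) + (1 / 2 - 3 * τ))
          + ∑ v ∈ M' \ (P ∪ Q), (E {v} (X v) + (1 / 2 - 3 * τ)) := by
        rw [← Finset.sum_sdiff hPQ]
        ring
      have h3 : ((P ∪ Q).card : ℝ) * (1 - 4 * τ) ≤
          ∑ v ∈ P ∪ Q, (E {v} (X v) + (1 / 2 - 3 * τ)) := by
        rw [← nsmul_eq_mul]
        refine Finset.card_nsmul_le_sum _ _ _ fun u hu => ?_
        have := (hM u (hM' (hPQ hu))).1
        linarith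
      have h4 : ((P ∪ Q).card : ℝ) = P.card + Q.card := by
        exact_mod_cast card_union_of_disjoint hdis
      have h5 : (Q.card : ℝ) ≤ q * P.card := by exact_mod_cast hj2
      have h6 : 4 * τ * (Q.card : ℝ) ≤ 4 * τ * (q * P.card) :=
        mul_le_mul_of_nonneg_left h5 (by linarith)
      have h7 : (4 * τ * (q + 1)) * (P.card : ℝ) ≤ 1 * P.card :=
        mul_le_mul_of_nonneg_right hτq (Nat.cast_nonneg _)
      rw [hsplit]
      rw [h4] at h3
      linarith
  · push Not at hA
    have hgrow : ∀ v ∈ M', q ^ l ≤ (sph G M' v l).card := by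
      intro v hv
      have : ∀ j, j ≤ l → q ^ j ≤ (sph G M' v j).card := by
        intro j
        induction j with
        | zero => intro _; simp [sph]
        | succ j ihj =>
          intro hjl
          have h1 := ihj (by omega)
          have hne : (sph G M' v j).Nonempty :=
            card_pos.mp (lt_of_lt_of_le (Nat.one_le_pow _ _ hq) h1)
          have h2 := hA v hv j (by omega) hne
          rw [pow_succ, mul_comm]
          exact (Nat.mul_le_mul_left q h1).trans h2.le
      exact this l le_rfl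
    have hself : ∀ v ∈ M', ∃ y, y ∈ sph G M' v l := by
      intro v hv
      have : 0 < (sph G M' v l).card := lt_of_lt_of_le (Nat.one_le_pow _ _ hq) (hgrow v hv)
      exact card_pos.mp this
    obtain ⟨S, hS, hmax⟩ := (M'.powerset.filter fun S : Finset V =>
        (S : Set V).PairwiseDisjoint fun c => sph G M' c l).exists_max_image (fun S => S.card)
      ⟨∅, by simp⟩
    simp only [mem_filter, mem_powerset] at hS hmax
    have hScard : S.card * q ^ l ≤ Fintype.card V := by
      calc S.card * q ^ l = ∑ _c ∈ S, q ^ l := by rw [sum_const, smul_eq_mul]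
        _ ≤ ∑ c ∈ S, (sph G M' c l).card := Finset.sum_le_sum fun c hc => hgrow c (hS.1 hc)
        _ = (S.biUnion fun c => sph G M' c l).card := (card_biUnion hS.2).symm
        _ ≤ Fintype.card V := card_le_univ _
    have hSk : S.card + 2 ≤ k := by
      have h1 : S.card * q ^ l ≤ (k - 2) * q ^ l := by
        rw [mul_comm (k - 2)]
        exact hScard.trans hn
      have := Nat.le_of_mul_le_mul_right h1 (Nat.one_le_pow _ _ hq)
      omega
    refine round hE M' S hSk (1 / 2 - 3 * τ) fun v hv => ?_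
    obtain ⟨c, hc, y, hyc, hyv⟩ : ∃ c ∈ S, ∃ y, y ∈ sph G M' c l ∧ y ∈ sph G M' v l := by
      by_contra hno
      push Not at hno
      have hvS : v ∉ S := fun h => by
        obtain ⟨y, hy⟩ := hself v hv
        exact hno v h y hy hy
      have h1 := hmax (insert v S) ⟨insert_subset hv hS.1, by
        rw [coe_insert, Set.pairwiseDisjoint_insert_of_notMem (by simpa using hvS)]
        refine ⟨hS.2, fun c hc => ?_⟩
        rw [Finset.disjoint_left]
        intro y h1 h2
        exact hno c hc y h2 h1⟩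
      rw [card_insert_of_notMem hvS] at h1
      omega
    have hπ := sph_err hE hk hMu (hS.1 hc) l y hyc
    have hρ := sph_err hE hk hMu hv l y hyv
    refine ⟨c, hc, xor (par l) (par l), ?_⟩
    have h1 := hE.err_tri hk c y v (par l) (par l)
    rw [Local.err_symm (E := E) v y] at hρ
    linarith

/-- rounding local distributions of level `k`: the whole graph. -/
theorem round_walk (hE : Local G k E) (hk : 3 ≤ k) {l : ℕ} (hl : 1 ≤ l)
    (hn : Fintype.card V ≤ (4 * l - 1) ^ l * (k - 2)) :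
    ∃ T : Finset V, (∀ u v, G.Adj u v → u ∈ T ∨ v ∈ T) ∧
      (8 * l + 1 : ℝ) * T.card ≤ 16 * l * ∑ v : V, E {v} (X v) := by
  classical
  have hlR : (1 : ℝ) ≤ l := by exact_mod_cast hl
  set τ : ℝ := 1 / (16 * l) with hτ
  have hτ0 : 0 < τ := by positivity
  have hτl : τ * l = 1 / 16 := by rw [hτ]; field_simp
  have hτ1 : τ ≤ 1 / 16 := by nlinarith
  have hx0 : ∀ v, 0 ≤ E {v} (X v) := fun v => hE.nonneg _ _ fun z _ => by
    unfold X; split_ifs <;> norm_num
  have hedge : ∀ u v, G.Adj u v → 1 ≤ E {u} (X u) + E {v} (X v) := by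
    intro u v huv
    have h1 := hE.err_edge (by omega) huv
    have h2 : 0 ≤ E {u, v} (D u v true) := hE.nonneg _ _ fun z _ => by
      unfold D; split_ifs <;> norm_num
    linarith
  let Hi : Finset V := univ.filter fun v => 1 / 2 + τ ≤ E {v} (X v)
  let Mi : Finset V := univ.filter fun v => 1 / 2 - τ < E {v} (X v) ∧ E {v} (X v) < 1 / 2 + τ
  have hqR : (((4 * l - 1 : ℕ) : ℝ)) + 1 = 4 * l := by
    have : (4 * l - 1 : ℕ) + 1 = 4 * l := by omega
    exact_mod_cast this
  obtain ⟨T, hT, hTc, hTs⟩ := mid' hE hk (τ := τ) hτ0.le (M := Mi) (l := l) (q := 4 * l - 1)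
    (by omega)
    (fun u hu => by
      have := (mem_filter.mp hu).2
      exact ⟨this.1.le, this.2.le⟩)
    (by linarith)
    (by rw [hqR]; linarith)
    (by linarith) hn Mi.card Mi (Subset.refl _) rfl
  refine ⟨Hi ∪ T, ?_, ?_⟩
  · intro u v huv
    have h1 := hedge u v huv
    simp only [mem_union]
    by_cases hu : u ∈ Hi
    · left; left; exact hu
    · by_cases hv : v ∈ Hi
      · right; left; exact hv
      · have hu' : E {u} (X u) < 1 / 2 + τ := by
          by_contra h; exact hu (mem_filter.mpr ⟨mem_univ _, not_lt.mp h⟩)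
        have hv' : E {v} (X v) < 1 / 2 + τ := by
          by_contra h; exact hv (mem_filter.mpr ⟨mem_univ _, not_lt.mp h⟩)
        have huM : u ∈ Mi := mem_filter.mpr ⟨mem_univ _, by linarith, hu'⟩
        have hvM : v ∈ Mi := mem_filter.mpr ⟨mem_univ _, by linarith, hv'⟩
        rcases hTc u huM v hvM huv with h | h
        · left; right; exact h
        · right; right; exact h
  · have hcard : ((Hi ∪ T).card : ℝ) ≤ Hi.card + T.card := by
      exact_mod_cast card_union_le Hi T
    have hHi : (Hi.card : ℝ) * (1 / 2 + τ) ≤ ∑ v ∈ Hi, E {v} (X v) := by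
      rw [← nsmul_eq_mul]
      exact Finset.card_nsmul_le_sum _ _ _ fun u hu => (mem_filter.mp hu).2
    have hMi : (Mi.card : ℝ) * (1 / 2 - τ) ≤ ∑ v ∈ Mi, E {v} (X v) := by
      rw [← nsmul_eq_mul]
      refine Finset.card_nsmul_le_sum _ _ _ fun u hu => ?_
      exact (mem_filter.mp hu).2.1.le
    rw [Finset.sum_add_distrib, sum_const, nsmul_eq_mul] at hTs
    have hdisj : Disjoint Hi Mi := by
      rw [Finset.disjoint_left]
      intro u h1 h2
      have h3 := (mem_filter.mp h1).2
      have h4 := (mem_filter.mp h2).2.2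
      linarith
    have hsum : ∑ v ∈ Hi, E {v} (X v) + ∑ v ∈ Mi, E {v} (X v) ≤ ∑ v : V, E {v} (X v) := by
      rw [← Finset.sum_union hdisj]
      exact Finset.sum_le_sum_of_subset_of_nonneg (subset_univ _) fun v _ _ => hx0 v
    set a := ∑ v ∈ Hi, E {v} (X v) with ha
    set b := ∑ v ∈ Mi, E {v} (X v) with hb
    have hb0 : 0 ≤ b := Finset.sum_nonneg fun v _ => hx0 v
    have h6 : (8 * l + 1 : ℝ) * Hi.card ≤ 16 * l * a := by
      have : (8 * l + 1 : ℝ) = 16 * l * (1 / 2 + τ) := by
        have : (16 : ℝ) * l * τ = 1 := by nlinarith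
        nlinarith
      rw [this]
      nlinarith
    have h7 : (8 * l + 1 : ℝ) * T.card ≤ 16 * l * b := by
      have hq : (0 : ℝ) < 1 / 2 - τ := by linarith
      -- `(1/2 - τ) |T| ≤ (1 - 4 τ) b`
      have h8 : (1 / 2 - τ) * (T.card : ℝ) ≤ (1 - 4 * τ) * b := by
        have h9 : (1 / 2 - τ) * (T.card : ℝ) ≤ (1 / 2 - τ) * (b + Mi.card * (1 / 2 - 3 * τ)) :=
          mul_le_mul_of_nonneg_left hTs hq.le
        have h10 : (Mi.card : ℝ) * (1 / 2 - τ) * (1 / 2 - 3 * τ) ≤ b * (1 / 2 - 3 * τ) :=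
          mul_le_mul_of_nonneg_right hMi (by linarith)
        nlinarith
      have h9 : (1 / 2 + τ) * (1 - 4 * τ) ≤ 1 / 2 - τ := by nlinarith
      have h10 : (1 / 2 - τ) * ((1 / 2 + τ) * (T.card : ℝ)) ≤ (1 / 2 - τ) * b := by
        calc (1 / 2 - τ) * ((1 / 2 + τ) * (T.card : ℝ))
            = (1 / 2 + τ) * ((1 / 2 - τ) * (T.card : ℝ)) := by ring
          _ ≤ (1 / 2 + τ) * ((1 - 4 * τ) * b) := mul_le_mul_of_nonneg_left h8 (by linarith)
          _ = ((1 / 2 + τ) * (1 - 4 * τ)) * b := by ring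
          _ ≤ (1 / 2 - τ) * b := mul_le_mul_of_nonneg_right h9 hb0
      have h11 : (1 / 2 + τ) * (T.card : ℝ) ≤ b := le_of_mul_le_mul_left h10 hq
      have h12 : (8 * l + 1 : ℝ) = 16 * l * (1 / 2 + τ) := by
        have : (16 : ℝ) * l * τ = 1 := by nlinarith
        nlinarith
      rw [h12, mul_assoc]
      exact mul_le_mul_of_nonneg_left h11 (by linarith)
    have h11 : (8 * l + 1 : ℝ) * ((Hi ∪ T).card : ℝ) ≤ (8 * l + 1 : ℝ) * (Hi.card + T.card) :=
      mul_le_mul_of_nonneg_left hcard (by linarith)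
    have h12 : 16 * (l : ℝ) * (a + b) ≤ 16 * l * ∑ v : V, E {v} (X v) :=
      mul_le_mul_of_nonneg_left hsum (by linarith)
    linarith

end Pool.Agent.Run7.h881.VL
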