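import Mathlib

/-!
Counting logic equivalence of two finite graphs, by the bijective pebble game, and the vertex cover
number.
-/

namespace Pool.Agent.Run7.h881.VL

/-- A winning system of positions for Duplicator in the bijective `k`-pebble game (Hella) on the
graphs `G` and `H`. A position is a finite set of pairs `(v, v')` (a pebble on `v` in `G`, its
partner on `v'` in `H`). The system is closed under removing pebble pairs, each position is a
partial isomorphism, and at a position with fewer than `k` pairs Duplicator has a bijection `f` of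
the vertex sets such that all the positions with one more pair `(v, f v)` are in the system. -/
structure IsSystem {V V' : Type*} [Fintype V] [DecidableEq V] [Fintype V'] [DecidableEq V']
    (G : SimpleGraph V) (H : SimpleGraph V') (k : ℕ) (W : Set (Finset (V × V'))) : Prop where
  sub : ∀ P ∈ W, ∀ Q ⊆ P, Q ∈ W
  iso : ∀ P ∈ W, ∀ a ∈ P, ∀ b ∈ P,
    (a.1 = b.1 ↔ a.2 = b.2) ∧ (G.Adj a.1 b.1 ↔ H.Adj a.2 b.2)
  forth : ∀ P ∈ W, P.card < k → ∃ f : V ≃ V', ∀ v, insert (v, f v) P ∈ W

/-- `G ≡^C_k H`: Duplicator wins the bijective `k`-pebble game from the empty position. -/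
def CountingEquiv {V V' : Type*} [Fintype V] [DecidableEq V] [Fintype V'] [DecidableEq V']
    (G : SimpleGraph V) (H : SimpleGraph V') (k : ℕ) : Prop :=
  ∃ W, IsSystem G H k W ∧ ∅ ∈ W

/-- The vertex cover number: the least cardinality of a set of vertices which meets every edge. -/
noncomputable def vc {V : Type*} [Fintype V] (G : SimpleGraph V) : ℕ :=
  sInf {m | ∃ T : Finset V, (∀ u v, G.Adj u v → u ∈ T ∨ v ∈ T) ∧ T.card = m}

end Pool.Agent.Run7.h881.VL
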