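import Pool.Agent.Run7.h881.VL.Defs

set_option linter.unusedSectionVars false

/-!
The bijective `k`-pebble game (Hella) on two finite graphs and the local distributions on vertex
covers which a winning strategy of Duplicator produces.
-/

namespace Pool.Agent.Run7.h881.VL

open Finset

variable {V V' : Type*} [Fintype V] [DecidableEq V] [Fintype V'] [DecidableEq V']

/-- Duplicator wins from the position `P`. -/
def Win (G : SimpleGraph V) (H : SimpleGraph V') (k : ℕ) (P : Finset (V × V')) : Prop :=
  ∃ W, IsSystem G H k W ∧ P ∈ W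

variable {G : SimpleGraph V} {H : SimpleGraph V'} {k : ℕ}

lemma win_sub {P Q : Finset (V × V')} (h : Win G H k P) (hQ : Q ⊆ P) : Win G H k Q := by
  obtain ⟨W, hW, hP⟩ := h
  exact ⟨W, hW, hW.sub P hP Q hQ⟩

lemma win_iso {P : Finset (V × V')} (h : Win G H k P) {a b : V × V'} (ha : a ∈ P) (hb : b ∈ P) :
    (a.1 = b.1 ↔ a.2 = b.2) ∧ (G.Adj a.1 b.1 ↔ H.Adj a.2 b.2) := by
  obtain ⟨W, hW, hP⟩ := h
  exact hW.iso P hP a ha b hb

lemma win_forth {P : Finset (V × V')} (h : Win G H k P) (hc : P.card < k) :
    ∃ f : V ≃ V', ∀ v, Win G H k (insert (v, f v) P) := by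
  obtain ⟨W, hW, hP⟩ := h
  obtain ⟨f, hf⟩ := hW.forth P hP hc
  exact ⟨f, fun v => ⟨W, hW, hf v⟩⟩

/-- Composition of winning positions `G → H → G → H`. -/
lemma win_comp0 {P : Finset (V × V')} (φ : V × V' → V') (ψ : V × V' → V)
    (h1 : Win G H k (P.image fun p => (p.1, φ p)))
    (h2 : Win G H k (P.image fun p => (ψ p, φ p)))
    (h3 : Win G H k (P.image fun p => (ψ p, p.2))) : Win G H k P := by
  classical
  refine ⟨{P | ∃ (φ : V × V' → V') (ψ : V × V' → V),
    Win G H k (P.image fun p => (p.1, φ p)) ∧ Win G H k (P.image fun p => (ψ p, φ p)) ∧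
    Win G H k (P.image fun p => (ψ p, p.2))}, ⟨?_, ?_, ?_⟩, ⟨φ, ψ, h1, h2, h3⟩⟩
  · rintro P ⟨φ, ψ, h1, h2, h3⟩ Q hQ
    exact ⟨φ, ψ, win_sub h1 (image_subset_image hQ), win_sub h2 (image_subset_image hQ),
      win_sub h3 (image_subset_image hQ)⟩
  · rintro P ⟨φ, ψ, h1, h2, h3⟩ a ha b hb
    have e1 := win_iso h1 (mem_image_of_mem _ ha) (mem_image_of_mem _ hb)
    have e2 := win_iso h2 (mem_image_of_mem _ ha) (mem_image_of_mem _ hb)
    have e3 := win_iso h3 (mem_image_of_mem _ ha) (mem_image_of_mem _ hb)
    simp only at e1 e2 e3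
    exact ⟨e1.1.trans (e2.1.symm.trans e3.1), e1.2.trans (e2.2.symm.trans e3.2)⟩
  · rintro P ⟨φ, ψ, h1, h2, h3⟩ hc
    obtain ⟨f1, hf1⟩ := win_forth h1 (lt_of_le_of_lt card_image_le hc)
    obtain ⟨f2, hf2⟩ := win_forth h2 (lt_of_le_of_lt card_image_le hc)
    obtain ⟨f3, hf3⟩ := win_forth h3 (lt_of_le_of_lt card_image_le hc)
    refine ⟨(f1.trans f2.symm).trans f3, fun v => ?_⟩
    set q : V × V' := (v, ((f1.trans f2.symm).trans f3) v) with hq
    by_cases hqP : q ∈ P
    · rw [insert_eq_of_mem hqP]
      exact ⟨φ, ψ, h1, h2, h3⟩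
    · have im : ∀ (α : Type _) [DecidableEq α] (g : V × V' → α) (g' : V × V' → α),
          (∀ p ∈ P, g' p = g p) → (insert q P).image g' = insert (g' q) (P.image g) := by
        intro α _ g g' hg
        rw [image_insert]
        congr 1
        exact image_congr fun p hp => hg p hp
      refine ⟨Function.update φ q (f1 v), Function.update ψ q (f2.symm (f1 v)), ?_, ?_, ?_⟩
      · rw [im _ (fun p => (p.1, φ p))]
        · simp only [Function.update_self]
          exact hf1 v
        · intro p hp
          have : p ≠ q := fun h => hqP (h ▸ hp)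
          simp [Function.update_of_ne this]
      · rw [im _ (fun p => (ψ p, φ p))]
        · simp only [Function.update_self]
          have := hf2 (f2.symm (f1 v))
          rwa [Equiv.apply_symm_apply] at this
        · intro p hp
          have : p ≠ q := fun h => hqP (h ▸ hp)
          simp [Function.update_of_ne this]
      · rw [im _ (fun p => (ψ p, p.2))]
        · simp only [Function.update_self]
          exact hf3 (f2.symm (f1 v))
        · intro p hp
          have : p ≠ q := fun h => hqP (h ▸ hp)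
          simp [Function.update_of_ne this]

lemma win_comp {ι : Type*} {J : Finset ι} {s s₂ : ι → V} {t t₂ : ι → V'}
    (h1 : Win G H k (J.image fun i => (s i, t i)))
    (h2 : Win G H k (J.image fun i => (s₂ i, t i)))
    (h3 : Win G H k (J.image fun i => (s₂ i, t₂ i))) :
    Win G H k (J.image fun i => (s i, t₂ i)) := by
  classical
  rcases J.eq_empty_or_nonempty with rfl | ⟨i0, hi0⟩
  · simpa using h1
  have hex : ∀ p : V × V', ∃ i ∈ J, p ∈ J.image (fun i => (s i, t₂ i)) → (s i, t₂ i) = p := by
    intro p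
    by_cases hp : p ∈ J.image (fun i => (s i, t₂ i))
    · obtain ⟨i, hi, rfl⟩ := mem_image.mp hp
      exact ⟨i, hi, fun _ => rfl⟩
    · exact ⟨i0, hi0, fun h => absurd h hp⟩
  choose g hgJ hg using hex
  refine win_comp0 (fun p => t (g p)) (fun p => s₂ (g p)) ?_ ?_ ?_
  · refine win_sub h1 ?_
    intro x hx
    obtain ⟨p, hp, rfl⟩ := mem_image.mp hx
    refine mem_image.mpr ⟨g p, hgJ p, ?_⟩
    have := congrArg Prod.fst (hg p hp)
    simp only at this
    simp [this]
  · refine win_sub h2 ?_
    intro x hx
    obtain ⟨p, hp, rfl⟩ := mem_image.mp hx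
    exact mem_image.mpr ⟨g p, hgJ p, rfl⟩
  · refine win_sub h3 ?_
    intro x hx
    obtain ⟨p, hp, rfl⟩ := mem_image.mp hx
    refine mem_image.mpr ⟨g p, hgJ p, ?_⟩
    have := congrArg Prod.snd (hg p hp)
    simp only at this
    simp [this]

/-- the position with pebble pairs `(v, t v)`, `v ∈ S`. -/
def pos (S : Finset V) (t : V → V') : Finset (V × V') := S.image fun v => (v, t v)

lemma pos_insert {S : Finset V} {v : V} (hv : v ∉ S) (t : V → V') (w : V') :
    pos (insert v S) (Function.update t v w) = insert (v, w) (pos S t) := by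
  unfold pos
  rw [image_insert, Function.update_self]
  congr 1
  refine image_congr fun u hu => ?_
  have : u ≠ v := fun h => hv (h ▸ hu)
  simp [Function.update_of_ne this]

/-- key step: from three winning positions to a fourth. -/
lemma win_switch {S : Finset V} {t t₂ : V → V'} {v u : V} {w w₂ : V'}
    (h1 : Win G H k (insert (v, w) (pos S t)))
    (h2 : Win G H k (insert (u, w) (pos S t)))
    (h3 : Win G H k (insert (u, w₂) (pos S t₂))) :
    Win G H k (insert (v, w₂) (pos S t₂)) := by
  classical
  have key : ∀ (a : V) (b : V') (r : V → V'),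
      ((insertNone S).image fun i : Option V => ((i.elim a id : V), (i.elim b r : V')))
        = insert (a, b) (pos S r) := by
    intro a b r
    ext p
    simp only [mem_image, mem_insert, pos, mem_insertNone]
    constructor
    · rintro ⟨i, hi, rfl⟩
      cases i with
      | none => left; rfl
      | some i => right; exact ⟨i, hi i rfl, rfl⟩
    · rintro (rfl | ⟨i, hi, rfl⟩)
      · exact ⟨none, by simp, rfl⟩
      · exact ⟨some i, by simpa using hi, rfl⟩
  rw [← key] at h1 h2 h3 ⊢
  exact win_comp h1 h2 h3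

lemma win_pos_insert {S : Finset V} {t : V → V'} (h : Win G H k (pos S t)) (hS : S.card < k) :
    ∃ f : V ≃ V', ∀ v, Win G H k (insert (v, f v) (pos S t)) :=
  win_forth h (lt_of_le_of_lt card_image_le hS)

open Classical in
/-- the extensions of the position `pos S t` by a pebble on `v` -/
noncomputable def ext (G : SimpleGraph V) (H : SimpleGraph V') (k : ℕ) (S : Finset V) (t : V → V')
    (v : V) : Finset V' :=
  univ.filter fun w => Win G H k (insert (v, w) (pos S t))

lemma card_ext_le {S : Finset V} {t t₂ : V → V'} (h : Win G H k (pos S t))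
    (h₂ : Win G H k (pos S t₂)) (hS : S.card < k) (v : V) :
    (ext G H k S t v).card ≤ (ext G H k S t₂ v).card := by
  classical
  obtain ⟨f1, hf1⟩ := win_pos_insert h hS
  obtain ⟨f2, hf2⟩ := win_pos_insert h₂ hS
  refine card_le_card_of_injOn (fun w => f2 (f1.symm w)) ?_ ?_
  · intro w hw
    simp only [ext, coe_filter, mem_univ, true_and, Set.mem_ofPred_eq] at hw ⊢
    refine win_switch (u := f1.symm w) hw ?_ (hf2 _)
    have := hf1 (f1.symm w)
    rwa [Equiv.apply_symm_apply] at this
  · intro a _ b _ hab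
    simpa using hab

lemma card_ext_eq {S : Finset V} {t t₂ : V → V'} (h : Win G H k (pos S t))
    (h₂ : Win G H k (pos S t₂)) (hS : S.card < k) (v : V) :
    (ext G H k S t v).card = (ext G H k S t₂ v).card :=
  le_antisymm (card_ext_le h h₂ hS v) (card_ext_le h₂ h hS v)

open Classical in
/-- the class of a set `S` of pebbled vertices -/
noncomputable def cls (G : SimpleGraph V) (H : SimpleGraph V') (k : ℕ) (S : Finset V) :
    Finset (V → V') :=
  univ.filter fun t => Win G H k (pos S t)

lemma mem_cls {S : Finset V} {t : V → V'} : t ∈ cls G H k S ↔ Win G H k (pos S t) := by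
  classical
  simp [cls]

lemma mem_ext {S : Finset V} {t : V → V'} {v : V} {w : V'} :
    w ∈ ext G H k S t v ↔ Win G H k (insert (v, w) (pos S t)) := by
  classical
  simp [ext]

lemma cls_nonempty (h : CountingEquiv G H k) (hk : 0 < k) :
    ∀ S : Finset V, S.card ≤ k → (cls G H k S).Nonempty := by
  classical
  intro S
  induction S using Finset.induction with
  | empty =>
    intro _
    obtain ⟨W, hW, h0⟩ := h
    obtain ⟨f, -⟩ := hW.forth ∅ h0 (by simpa using hk)
    exact ⟨f, mem_cls.mpr ⟨W, hW, by simpa [pos] using h0⟩⟩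
  | insert v S hv ih =>
    intro hc
    rw [card_insert_of_notMem hv] at hc
    obtain ⟨t, ht⟩ := ih (by omega)
    obtain ⟨f, hf⟩ := win_pos_insert (mem_cls.mp ht) (by omega)
    refine ⟨Function.update t v (f v), mem_cls.mpr ?_⟩
    rw [pos_insert hv]
    exact hf v

lemma sum_update (v : V) (h : (V → V') → ℝ) :
    ∑ t : V → V', ∑ w : V', h (Function.update t v w) = (Fintype.card V' : ℝ) * ∑ t, h t := by
  classical
  let e : ((V → V') × V') ≃ ((V → V') × V') :=
    { toFun := fun p => (Function.update p.1 v p.2, p.1 v)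
      invFun := fun p => (Function.update p.1 v p.2, p.1 v)
      left_inv := fun p => by
        ext <;> simp
      right_inv := fun p => by
        ext <;> simp }
  rw [← Fintype.sum_prod_type' (f := fun t w => h (Function.update t v w))]
  have : ∑ p : (V → V') × V', h (Function.update p.1 v p.2)
      = ∑ p : (V → V') × V', h p.1 :=
    Fintype.sum_equiv e _ _ (fun p => rfl)
  rw [this, Fintype.sum_prod_type]
  simp [Finset.mul_sum]

lemma sum_cls {S : Finset V} {v : V} (hv : v ∉ S) (hS : S.card < k) (t₀ : V → V')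
    (ht₀ : t₀ ∈ cls G H k S) (g : (V → V') → ℝ) (hg : ∀ t w, g (Function.update t v w) = g t) :
    (Fintype.card V' : ℝ) * ∑ t ∈ cls G H k (insert v S), g t
      = ((ext G H k S t₀ v).card : ℝ) * ∑ t ∈ cls G H k S, g t := by
  classical
  have h1 := sum_update v (fun t => if t ∈ cls G H k (insert v S) then g t else 0)
  rw [Finset.sum_ite_mem, univ_inter] at h1
  rw [← h1]
  have h2 : ∀ t : V → V', (∑ w : V', if Function.update t v w ∈ cls G H k (insert v S) then
      g (Function.update t v w) else 0)
      = if t ∈ cls G H k S then ((ext G H k S t₀ v).card : ℝ) * g t else 0 := by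
    intro t
    have h3 : ∀ w : V', (if Function.update t v w ∈ cls G H k (insert v S) then
        g (Function.update t v w) else 0) = if w ∈ ext G H k S t v then g t else 0 := by
      intro w
      have hiff : Function.update t v w ∈ cls G H k (insert v S) ↔ w ∈ ext G H k S t v := by
        rw [mem_cls, pos_insert hv, mem_ext]
      by_cases hw : w ∈ ext G H k S t v
      · rw [if_pos (hiff.mpr hw), if_pos hw, hg]
      · rw [if_neg (fun h => hw (hiff.mp h)), if_neg hw]
    simp_rw [h3]
    rw [Finset.sum_ite_mem, univ_inter, sum_const, nsmul_eq_mul]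
    by_cases ht : t ∈ cls G H k S
    · rw [if_pos ht, card_ext_eq (mem_cls.mp ht) (mem_cls.mp ht₀) hS v]
    · rw [if_neg ht]
      have : ext G H k S t v = ∅ := by
        rw [Finset.eq_empty_iff_forall_notMem]
        intro w hw
        exact ht (mem_cls.mpr (win_sub (mem_ext.mp hw) (subset_insert _ _)))
      simp [this]
  simp_rw [h2]
  rw [Finset.sum_ite_mem, univ_inter, mul_sum]

/-- the pattern of a vertex set `C` of `H` pulled back along `t` -/
def pat (C : Finset V') (t : V → V') : Finset V := univ.filter fun v => t v ∈ C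

/-- the local expectation -/
noncomputable def lexp (G : SimpleGraph V) (H : SimpleGraph V') (k : ℕ) (C : Finset V')
    (S : Finset V) (f : Finset V → ℝ) : ℝ :=
  (∑ t ∈ cls G H k S, f (pat C t)) / ((cls G H k S).card : ℝ)

lemma lexp_insert (h : CountingEquiv G H k) (C : Finset V') {S : Finset V} {v : V} (hv : v ∉ S)
    (hS : S.card < k) (f : Finset V → ℝ) (hf : ∀ z, f (z ∩ S) = f z) :
    lexp G H k C (insert v S) f = lexp G H k C S f := by
  classical
  have hk : 0 < k := by omega
  obtain ⟨t₀, ht₀⟩ := cls_nonempty h hk S hS.le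
  have hpat : ∀ (t : V → V') (w : V'), f (pat C (Function.update t v w)) = f (pat C t) := by
    intro t w
    rw [← hf (pat C (Function.update t v w)), ← hf (pat C t)]
    congr 1
    ext u
    simp only [pat, mem_inter, mem_filter, mem_univ, true_and]
    constructor
    · rintro ⟨a, b⟩
      have : u ≠ v := fun h => hv (h ▸ b)
      rw [Function.update_of_ne this] at a
      exact ⟨a, b⟩
    · rintro ⟨a, b⟩
      have : u ≠ v := fun h => hv (h ▸ b)
      rw [Function.update_of_ne this]
      exact ⟨a, b⟩
  have h1 := sum_cls hv hS t₀ ht₀ (fun t => f (pat C t)) hpat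
  have h2 := sum_cls hv hS t₀ ht₀ (fun _ => (1 : ℝ)) (fun _ _ => rfl)
  simp only [sum_const, nsmul_eq_mul, mul_one] at h2
  have hc1 : (0 : ℝ) < (cls G H k (insert v S)).card := by
    have := cls_nonempty h hk (insert v S) (by rw [card_insert_of_notMem hv]; omega)
    exact_mod_cast this.card_pos
  have hc2 : (0 : ℝ) < (cls G H k S).card := by
    exact_mod_cast (card_pos.mpr ⟨t₀, ht₀⟩)
  have hN : (0 : ℝ) < Fintype.card V' := by
    rcases isEmpty_or_nonempty V' with hV | hV
    · exact (hV.false (t₀ v)).elim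
    · exact_mod_cast Fintype.card_pos
  unfold lexp
  rw [div_eq_div_iff hc1.ne' hc2.ne']
  have hm : (0 : ℝ) < (ext G H k S t₀ v).card := by
    by_contra hcon
    have hle : ((ext G H k S t₀ v).card : ℝ) = 0 :=
      le_antisymm (not_lt.mp hcon) (Nat.cast_nonneg _)
    rw [hle, zero_mul] at h2
    exact absurd h2 (mul_pos hN hc1).ne'
  have hA : (Fintype.card V' : ℝ) ≠ 0 := hN.ne'
  apply mul_left_cancel₀ hA
  calc (Fintype.card V' : ℝ) * ((∑ t ∈ cls G H k (insert v S), f (pat C t)) *
        ((cls G H k S).card : ℝ))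
      = (((ext G H k S t₀ v).card : ℝ) * ∑ t ∈ cls G H k S, f (pat C t)) *
        ((cls G H k S).card : ℝ) := by rw [← h1]; ring
    _ = (∑ t ∈ cls G H k S, f (pat C t)) *
        (((ext G H k S t₀ v).card : ℝ) * ((cls G H k S).card : ℝ)) := by ring
    _ = (∑ t ∈ cls G H k S, f (pat C t)) *
        ((Fintype.card V' : ℝ) * ((cls G H k (insert v S)).card : ℝ)) := by rw [← h2]
    _ = _ := by ring

lemma lexp_cons (h : CountingEquiv G H k) (C : Finset V') {S T : Finset V} (hST : S ⊆ T)
    (hT : T.card ≤ k) (f : Finset V → ℝ) (hf : ∀ z, f (z ∩ S) = f z) :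
    lexp G H k C T f = lexp G H k C S f := by
  classical
  have key : ∀ R : Finset V, Disjoint R S → (R ∪ S).card ≤ k →
      lexp G H k C (R ∪ S) f = lexp G H k C S f := by
    intro R
    induction R using Finset.induction with
    | empty => intro _ _; simp
    | insert v R hv ih =>
      intro hd hc
      rw [disjoint_insert_left] at hd
      have hvn : v ∉ R ∪ S := by simp [hv, hd.1]
      rw [insert_union] at hc ⊢
      rw [card_insert_of_notMem hvn] at hc
      rw [lexp_insert h C hvn (by omega) f, ih hd.2 (by omega)]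
      intro z
      rw [← hf (z ∩ (R ∪ S)), ← hf z]
      congr 1
      ext u
      simp only [mem_inter, mem_union]
      tauto
  have hT' : (T \ S) ∪ S = T := sdiff_union_of_subset hST
  have := key (T \ S) sdiff_disjoint (by rw [hT']; exact hT)
  rwa [hT'] at this

lemma lexp_nonneg (C : Finset V') (hC : ∀ u v, H.Adj u v → u ∈ C ∨ v ∈ C) (S : Finset V)
    (f : Finset V → ℝ)
    (hf : ∀ z : Finset V, (∀ u ∈ S, ∀ v ∈ S, G.Adj u v → u ∈ z ∨ v ∈ z) → 0 ≤ f z) :
    0 ≤ lexp G H k C S f := by
  classical
  unfold lexp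
  refine div_nonneg (sum_nonneg fun t ht => hf _ ?_) (Nat.cast_nonneg _)
  intro u hu v hv huv
  have h1 := win_iso (mem_cls.mp ht) (mem_image_of_mem _ hu) (mem_image_of_mem _ hv)
  have := hC _ _ (h1.2.mp huv)
  simpa [pat] using this

lemma lexp_one (h : CountingEquiv G H k) (hk : 0 < k) (C : Finset V') {S : Finset V}
    (hS : S.card ≤ k) : lexp G H k C S (fun _ => 1) = 1 := by
  have := cls_nonempty h hk S hS
  have hc : ((cls G H k S).card : ℝ) ≠ 0 := by exact_mod_cast this.card_pos.ne'
  unfold lexp
  simp [hc]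

lemma lexp_add (C : Finset V') (S : Finset V) (f g : Finset V → ℝ) :
    lexp G H k C S (fun z => f z + g z) = lexp G H k C S f + lexp G H k C S g := by
  unfold lexp
  rw [sum_add_distrib, add_div]

lemma lexp_smul (C : Finset V') (S : Finset V) (c : ℝ) (f : Finset V → ℝ) :
    lexp G H k C S (fun z => c * f z) = c * lexp G H k C S f := by
  unfold lexp
  rw [← mul_sum, mul_div_assoc]

lemma lexp_single (h : CountingEquiv G H k) (hk : 0 < k) (C : Finset V') :
    ∑ v : V, lexp G H k C {v} (fun z => if v ∈ z then 1 else 0) ≤ (C.card : ℝ) := by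
  classical
  let A : V → Finset V' := fun v => univ.filter fun w => Win G H k {(v, w)}
  have hA : ∀ v w, w ∈ A v ↔ Win G H k {(v, w)} := fun v w => by simp [A]
  have hone : ∀ (v : V) (w : V'), insert (v, w) (pos (∅ : Finset V) (fun _ : V => w)) =
      ({(v, w)} : Finset (V × V')) := by
    intro v w
    simp [pos]
  obtain ⟨W, hW, h0⟩ := h
  obtain ⟨f, hf⟩ := hW.forth ∅ h0 (by simpa using hk)
  have hf' : ∀ v, Win G H k {(v, f v)} := fun v => ⟨W, hW, by simpa using hf v⟩
  have hsw : ∀ (v u : V) (w w₂ : V'), Win G H k {(v, w)} → Win G H k {(u, w)} →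
      Win G H k {(u, w₂)} → Win G H k {(v, w₂)} := by
    intro v u w w₂ h1 h2 h3
    have := win_switch (G := G) (H := H) (k := k) (S := ∅) (t := fun _ => w) (t₂ := fun _ => w₂)
      (v := v) (u := u) (w := w) (w₂ := w₂)
    simp only [pos, image_empty, insert_empty_eq] at this
    exact this h1 h2 h3
  have hx : ∀ v, lexp G H k C {v} (fun z => if v ∈ z then 1 else 0)
      = ((A v).filter (· ∈ C)).card / ((A v).card : ℝ) := by
    intro v
    have hs : ∀ g : V' → ℝ, (Fintype.card V' : ℝ) * ∑ t ∈ cls G H k {v}, g (t v)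
        = (Fintype.card (V → V') : ℝ) * ∑ w ∈ A v, g w := by
      intro g
      have h1 := sum_update v (fun t : V → V' => if t v ∈ A v then g (t v) else 0)
      simp only [Function.update_self] at h1
      rw [Finset.sum_ite_mem, univ_inter, sum_const, card_univ, nsmul_eq_mul] at h1
      rw [h1]
      congr 1
      rw [← Finset.sum_filter]
      refine Finset.sum_congr ?_ fun _ _ => rfl
      ext t
      simp only [mem_cls, mem_filter, mem_univ, true_and, hA]
      simp [pos]
    have e1 := hs (fun w => if w ∈ C then 1 else 0)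
    have e2 := hs (fun _ => 1)
    simp only [sum_const, nsmul_eq_mul, mul_one] at e2
    have hN : (0 : ℝ) < Fintype.card V' := by
      have : Nonempty V' := ⟨f v⟩
      exact_mod_cast Fintype.card_pos
    have hM : (0 : ℝ) < Fintype.card (V → V') := by
      have : Nonempty (V → V') := ⟨f⟩
      exact_mod_cast Fintype.card_pos
    have hAv : (0 : ℝ) < (A v).card := by
      have : (A v).Nonempty := ⟨f v, (hA _ _).mpr (hf' v)⟩
      exact_mod_cast this.card_pos
    have hcl : (0 : ℝ) < (cls G H k {v}).card := by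
      by_contra hcon
      have hle : ((cls G H k {v}).card : ℝ) = 0 :=
        le_antisymm (not_lt.mp hcon) (Nat.cast_nonneg _)
      rw [hle, mul_zero] at e2
      exact absurd e2 (mul_pos hM hAv).ne
    unfold lexp
    have e3 : ∑ t ∈ cls G H k {v}, (if v ∈ pat C t then (1 : ℝ) else 0)
        = ∑ t ∈ cls G H k {v}, (if t v ∈ C then (1 : ℝ) else 0) := by
      refine Finset.sum_congr rfl fun t _ => ?_
      simp [pat]
    rw [e3, div_eq_div_iff hcl.ne' hAv.ne']
    have e4 : ∑ w ∈ A v, (if w ∈ C then (1 : ℝ) else 0) = (((A v).filter (· ∈ C)).card : ℝ) := by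
      rw [Finset.sum_boole]
    rw [e4] at e1
    apply mul_left_cancel₀ hN.ne'
    calc (Fintype.card V' : ℝ) * ((∑ t ∈ cls G H k {v}, if t v ∈ C then (1 : ℝ) else 0) *
          ((A v).card : ℝ))
        = ((Fintype.card V' : ℝ) * (∑ t ∈ cls G H k {v}, if t v ∈ C then (1 : ℝ) else 0)) *
          ((A v).card : ℝ) := by ring
      _ = (((A v).filter (· ∈ C)).card : ℝ) *
          ((Fintype.card (V → V') : ℝ) * ((A v).card : ℝ)) := by rw [e1]; ring
      _ = (((A v).filter (· ∈ C)).card : ℝ) *
          ((Fintype.card V' : ℝ) * ((cls G H k {v}).card : ℝ)) := by rw [← e2]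
      _ = _ := by ring
  simp_rw [hx]
  have e5 : ∀ v, (((A v).filter (· ∈ C)).card : ℝ) / ((A v).card : ℝ)
      = ∑ w ∈ C, if w ∈ A v then (1 : ℝ) / (A v).card else 0 := by
    intro v
    rw [← Finset.sum_filter, sum_const, nsmul_eq_mul]
    have : ((A v).filter (· ∈ C)) = C.filter (· ∈ A v) := by
      ext w
      simp [and_comm]
    rw [this]
    ring
  simp_rw [e5]
  rw [Finset.sum_comm]
  have e6 : ∀ w ∈ C, ∑ v : V, (if w ∈ A v then (1 : ℝ) / (A v).card else 0) ≤ 1 := by
    intro w _
    rw [← Finset.sum_filter]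
    set B : Finset V := univ.filter fun v => w ∈ A v with hB
    have hle : ∀ v ∈ B, (1 : ℝ) / (A v).card ≤ 1 / B.card := by
      intro v hv
      have hv' : w ∈ A v := by simpa [hB] using hv
      have hcard : B.card ≤ (A v).card := by
        refine card_le_card_of_injOn f ?_ (fun a _ b _ hab => f.injective hab)
        intro u hu
        have hu' : w ∈ A u := by simpa [hB] using hu
        exact (hA _ _).mpr (hsw v u w (f u) ((hA _ _).mp hv') ((hA _ _).mp hu') (hf' u))
      have hBpos : (0 : ℝ) < B.card := by exact_mod_cast card_pos.mpr ⟨v, hv⟩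
      exact one_div_le_one_div_of_le hBpos (by exact_mod_cast hcard)
    calc ∑ v ∈ B, (1 : ℝ) / (A v).card ≤ ∑ v ∈ B, (1 : ℝ) / B.card := Finset.sum_le_sum hle
      _ = B.card * (1 / (B.card : ℝ)) := by rw [sum_const, nsmul_eq_mul]
      _ ≤ 1 := by
        rcases Nat.eq_zero_or_pos B.card with h | h
        · simp [h]
        · have : (0 : ℝ) < B.card := by exact_mod_cast h
          rw [mul_one_div, div_self this.ne']
  calc ∑ w ∈ C, ∑ v : V, (if w ∈ A v then (1 : ℝ) / (A v).card else 0)
      ≤ ∑ w ∈ C, (1 : ℝ) := Finset.sum_le_sum e6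
    _ = C.card := by simp

end Pool.Agent.Run7.h881.VL
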