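import Mathlib

set_option linter.unusedSectionVars false

/-!
Rounding local (Sherali-Adams) distributions on vertex covers.
-/

namespace Pool.Agent.Run7.h881.VL

open Finset

variable {V : Type*} [Fintype V] [DecidableEq V]

/-- consistent local distributions of level `k` on vertex covers of `G`. -/
structure Local (G : SimpleGraph V) (k : ℕ) (E : Finset V → (Finset V → ℝ) → ℝ) : Prop where
  add : ∀ S f g, E S (fun z => f z + g z) = E S f + E S g
  smul : ∀ S (c : ℝ) f, E S (fun z => c * f z) = c * E S f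
  one : ∀ S : Finset V, S.card ≤ k → E S (fun _ => 1) = 1
  nonneg : ∀ (S : Finset V) (f : Finset V → ℝ),
    (∀ z : Finset V, (∀ u ∈ S, ∀ v ∈ S, G.Adj u v → u ∈ z ∨ v ∈ z) → 0 ≤ f z) → 0 ≤ E S f
  cons : ∀ S T : Finset V, S ⊆ T → T.card ≤ k → ∀ f : Finset V → ℝ,
    (∀ z, f (z ∩ S) = f z) → E T f = E S f

variable {G : SimpleGraph V} {k : ℕ} {E : Finset V → (Finset V → ℝ) → ℝ}

namespace Local

lemma mono (hE : Local G k E) (S : Finset V) {f g : Finset V → ℝ}
    (h : ∀ z : Finset V, (∀ u ∈ S, ∀ v ∈ S, G.Adj u v → u ∈ z ∨ v ∈ z) → f z ≤ g z) :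
    E S f ≤ E S g := by
  have h1 := hE.nonneg S (fun z => g z + (-1) * f z) (fun z hz => by linarith [h z hz])
  rw [hE.add S g (fun z => (-1) * f z), hE.smul] at h1
  linarith

lemma congr' (hE : Local G k E) (S : Finset V) {f g : Finset V → ℝ}
    (h : ∀ z : Finset V, (∀ u ∈ S, ∀ v ∈ S, G.Adj u v → u ∈ z ∨ v ∈ z) → f z = g z) :
    E S f = E S g :=
  le_antisymm (hE.mono S fun z hz => (h z hz).le) (hE.mono S fun z hz => (h z hz).ge)

lemma zero (hE : Local G k E) (S : Finset V) : E S (fun _ => 0) = 0 := by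
  have := hE.smul S 0 (fun _ => 0)
  simpa using this

lemma const (hE : Local G k E) {S : Finset V} (hS : S.card ≤ k) (c : ℝ) :
    E S (fun _ => c) = c := by
  have := hE.smul S c (fun _ => 1)
  rw [hE.one S hS] at this
  simpa using this

lemma sum (hE : Local G k E) {ι : Type*} (S : Finset V) (I : Finset ι)
    (f : ι → Finset V → ℝ) : E S (fun z => ∑ i ∈ I, f i z) = ∑ i ∈ I, E S (f i) := by
  classical
  induction I using Finset.induction with
  | empty => simpa using hE.zero S
  | insert a I ha ih =>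
    simp_rw [sum_insert ha]
    rw [hE.add S (f a) (fun z => ∑ i ∈ I, f i z), ih]

end Local

/-- indicator of `v` -/
def X (v : V) (z : Finset V) : ℝ := if v ∈ z then 1 else 0

/-- indicator of the failure of the parity prediction of `v` from `c` -/
def D (c v : V) (π : Bool) (z : Finset V) : ℝ :=
  if (xor (decide (c ∈ z)) (decide (v ∈ z))) = π then 0 else 1

lemma D_tri (c u w : V) (π ρ : Bool) (z : Finset V) :
    D c w (xor π ρ) z ≤ D c u π z + D u w ρ z := by
  unfold D
  generalize decide (c ∈ z) = a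
  generalize decide (u ∈ z) = b
  generalize decide (w ∈ z) = d
  cases a <;> cases b <;> cases d <;> cases π <;> cases ρ <;> norm_num

namespace Local

lemma X_cons (hE : Local G k E) {v : V} {S : Finset V} (hv : v ∈ S) (hS : S.card ≤ k) :
    E S (X v) = E {v} (X v) :=
  hE.cons {v} S (singleton_subset_iff.mpr hv) hS _ (fun z => by simp [X])

lemma D_cons (hE : Local G k E) {c v : V} {S : Finset V} (hc : c ∈ S) (hv : v ∈ S)
    (hS : S.card ≤ k) (π : Bool) : E S (D c v π) = E {c, v} (D c v π) :=
  hE.cons {c, v} S (by intro a ha; simp only [mem_insert, mem_singleton] at ha; rcases ha with rfl | rfl <;> assumption)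
    hS _ (fun z => by simp [D])

lemma exact (hE : Local G k E) (B : Finset V) (hB : B.card ≤ k) :
    ∃ T ⊆ B, (∀ u ∈ B, ∀ v ∈ B, G.Adj u v → u ∈ T ∨ v ∈ T) ∧
      (T.card : ℝ) ≤ ∑ v ∈ B, E {v} (X v) := by
  classical
  obtain ⟨T, hT, hmin⟩ := (B.powerset.filter fun T =>
      ∀ u ∈ B, ∀ v ∈ B, G.Adj u v → u ∈ T ∨ v ∈ T).exists_min_image (fun T => T.card)
    ⟨B, by simp only [mem_filter, mem_powerset]; exact ⟨Subset.refl _, fun u hu _ _ _ => Or.inl hu⟩⟩
  simp only [mem_filter, mem_powerset] at hT hmin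
  refine ⟨T, hT.1, hT.2, ?_⟩
  have h1 : E B (fun _ => (T.card : ℝ)) ≤ E B (fun z => ∑ v ∈ B, X v z) := by
    refine hE.mono B fun z hz => ?_
    have h2 := hmin (z ∩ B) ⟨inter_subset_right, fun u hu v hv huv => by
      rcases hz u hu v hv huv with h | h
      · left; simp [h, hu]
      · right; simp [h, hv]⟩
    have h3 : ∑ v ∈ B, X v z = ((z ∩ B).card : ℝ) := by
      unfold X
      rw [sum_boole, filter_mem_eq_inter, inter_comm]
    rw [h3]
    exact_mod_cast h2
  rw [hE.const hB, hE.sum] at h1
  refine h1.trans (le_of_eq (Finset.sum_congr rfl fun v hv => hE.X_cons hv hB))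

lemma err_tri (hE : Local G k E) (hk : 3 ≤ k) (c u w : V) (π ρ : Bool) :
    E {c, w} (D c w (xor π ρ)) ≤ E {c, u} (D c u π) + E {u, w} (D u w ρ) := by
  classical
  have hS : ({c, u, w} : Finset V).card ≤ k := card_le_three.trans hk
  rw [← hE.D_cons (S := {c, u, w}) (c := c) (v := w) (by simp) (by simp) hS,
    ← hE.D_cons (S := {c, u, w}) (c := c) (v := u) (by simp) (by simp) hS,
    ← hE.D_cons (S := {c, u, w}) (c := u) (v := w) (by simp) (by simp) hS, ← hE.add]
  exact hE.mono _ fun z _ => D_tri c u w π ρ z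

lemma err_symm (c v : V) (π : Bool) : E {c, v} (D c v π) = E {v, c} (D v c π) := by
  rw [Finset.pair_comm c v]
  congr 1
  funext z
  unfold D
  rw [Bool.xor_comm]

lemma err_edge (hE : Local G k E) (hk : 2 ≤ k) {u w : V} (h : G.Adj u w) :
    E {u, w} (D u w true) = E {u} (X u) + E {w} (X w) - 1 := by
  classical
  have hS : ({u, w} : Finset V).card ≤ k := card_le_two.trans hk
  have h1 : E {u, w} (D u w true) = E {u, w} (fun z => (X u z + X w z) + (-1)) := by
    refine hE.congr' _ fun z hz => ?_
    have := hz u (by simp) w (by simp) h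
    unfold D X
    by_cases hu : u ∈ z <;> by_cases hw : w ∈ z <;> simp_all
  rw [h1, hE.add _ (fun z => X u z + X w z), hE.add, hE.const hS,
    hE.X_cons (S := {u, w}) (by simp) hS, hE.X_cons (S := {u, w}) (by simp) hS]
  ring

end Local

open Classical in
/-- the ball of radius `j` around `v` in `G[M]` -/
noncomputable def ball (G : SimpleGraph V) (M : Finset V) (v : V) : ℕ → Finset V
  | 0 => {v}
  | j + 1 => ball G M v j ∪ M.filter fun w => ∃ u ∈ ball G M v j, G.Adj u w

lemma ball_subset {M : Finset V} {v : V} (hv : v ∈ M) (j : ℕ) : ball G M v j ⊆ M := by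
  classical
  induction j with
  | zero => simpa [ball] using hv
  | succ j ih => exact union_subset ih (filter_subset _ _)

lemma ball_mono {M : Finset V} {v : V} (j : ℕ) : ball G M v j ⊆ ball G M v (j + 1) := by
  classical
  exact subset_union_left

lemma mem_ball_self {M : Finset V} {v : V} (j : ℕ) : v ∈ ball G M v j := by
  induction j with
  | zero => simp [ball]
  | succ j ih => exact ball_mono j ih

lemma ball_err (hE : Local G k E) (hk : 3 ≤ k) {M : Finset V} {τ : ℝ} (hτ : 0 ≤ τ)
    (hM : ∀ u ∈ M, E {u} (X u) ≤ 1 / 2 + τ) {v : V} (hv : v ∈ M) (j : ℕ) :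
    ∀ y ∈ ball G M v j, ∃ π, E {v, y} (D v y π) ≤ 2 * τ * j := by
  classical
  induction j with
  | zero =>
    intro y hy
    simp only [ball, mem_singleton] at hy
    subst hy
    refine ⟨false, ?_⟩
    have : D y y false = fun _ => 0 := by
      funext z
      simp [D]
    rw [this, hE.zero]
    simp
  | succ j ih =>
    intro y hy
    push_cast
    rcases mem_union.mp hy with h | h
    · obtain ⟨π, hπ⟩ := ih y h
      exact ⟨π, by nlinarith⟩
    · obtain ⟨hyM, u, hu, huy⟩ := mem_filter.mp h
      obtain ⟨π, hπ⟩ := ih u hu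
      refine ⟨xor π true, ?_⟩
      have h1 := hE.err_tri hk v u y π true
      have h2 := hE.err_edge (by omega) huy
      have h3 := hM u (ball_subset hv j hu)
      have h4 := hM y hyM
      linarith

/-- rounding after conditioning on a set `S` of centres -/
lemma round (hE : Local G k E) (M S : Finset V) (hS : S.card + 2 ≤ k) (β : ℝ)
    (hcen : ∀ v ∈ M, ∃ c ∈ S, ∃ π, E {c, v} (D c v π) ≤ β) :
    ∃ T ⊆ M, (∀ u ∈ M, ∀ v ∈ M, G.Adj u v → u ∈ T ∨ v ∈ T) ∧
      (T.card : ℝ) ≤ ∑ v ∈ M, (E {v} (X v) + β) := by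
  classical
  -- indicator of the pattern `a` on `S`
  let I : Finset V → Finset V → ℝ := fun a z => if z ∩ S = a then 1 else 0
  let w : Finset V → ℝ := fun a => E S (I a)
  let q : Finset V → V → ℝ := fun a v => E (insert v S) (fun z => I a z * X v z)
  let T : Finset V → Finset V := fun a => M.filter fun v => w a ≤ 2 * q a v
  have hI0 : ∀ a z, 0 ≤ I a z := fun a z => by
    simp only [I]; split_ifs <;> norm_num
  have hIS : ∀ a z (R : Finset V), S ⊆ R → I a (z ∩ R) = I a z := by
    intro a z R hR
    simp only [I]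
    rw [inter_assoc, inter_eq_right.mpr hR]
  have hcard1 : ∀ v, (insert v S).card ≤ k := fun v => (card_insert_le _ _).trans (by omega)
  have hcard2 : ∀ u v, (insert u (insert v S)).card ≤ k := fun u v =>
    (card_insert_le _ _).trans (by have := card_insert_le v S; omega)
  have hw0 : ∀ a, 0 ≤ w a := fun a => hE.nonneg _ _ fun z _ => hI0 a z
  have hsumI : ∀ z, ∑ a ∈ S.powerset, I a z = 1 := by
    intro z
    simp only [I]
    rw [Finset.sum_ite_eq, if_pos (mem_powerset.mpr inter_subset_right)]
  have hsumw : ∑ a ∈ S.powerset, w a = 1 := by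
    simp only [w]
    rw [← hE.sum]
    simp_rw [hsumI]
    exact hE.one S (by omega)
  -- the cover property
  have hcov : ∀ a, ∀ u ∈ M, ∀ v ∈ M, G.Adj u v → u ∈ T a ∨ v ∈ T a := by
    intro a u hu v hv huv
    have h1 : 0 ≤ E (insert u (insert v S)) (fun z => (I a z * X u z + I a z * X v z)
        + (-1) * I a z) := by
      refine hE.nonneg _ _ fun z hz => ?_
      have h2 := hz u (by simp) v (by simp) huv
      have h3 := hI0 a z
      have h4 : 1 ≤ X u z + X v z := by
        unfold X
        rcases h2 with h | h <;> simp only [h, if_true] <;> split_ifs <;> norm_num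
      nlinarith
    rw [hE.add _ (fun z => I a z * X u z + I a z * X v z) (fun z => (-1) * I a z),
      hE.add _ (fun z => I a z * X u z) (fun z => I a z * X v z), hE.smul] at h1
    have e1 : E (insert u (insert v S)) (fun z => I a z * X u z) = q a u := by
      refine hE.cons _ _ ?_ (hcard2 u v) _ ?_
      · intro y hy
        simp only [mem_insert] at hy ⊢
        tauto
      · intro z
        rw [hIS a z _ (subset_insert _ _)]
        simp [X]
    have e2 : E (insert u (insert v S)) (fun z => I a z * X v z) = q a v := by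
      refine hE.cons _ _ ?_ (hcard2 u v) _ ?_
      · exact subset_insert _ _
      · intro z
        rw [hIS a z _ (subset_insert _ _)]
        simp [X]
    have e3 : E (insert u (insert v S)) (I a) = w a := by
      refine hE.cons _ _ ?_ (hcard2 u v) _ ?_
      · exact (subset_insert _ _).trans (subset_insert _ _)
      · intro z
        exact hIS a z _ (Subset.refl _)
    have e3' : E (insert u (insert v S)) (fun z => I a z) = w a := e3
    rw [e1, e2, e3'] at h1
    by_contra hcon
    push Not at hcon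
    have hu' : ¬ w a ≤ 2 * q a u := fun h => hcon.1 (mem_filter.mpr ⟨hu, h⟩)
    have hv' : ¬ w a ≤ 2 * q a v := fun h => hcon.2 (mem_filter.mpr ⟨hv, h⟩)
    push Not at hu' hv'
    linarith
  -- the cost
  have hcost : ∀ v ∈ M, ∑ a ∈ S.powerset, (if v ∈ T a then w a else 0) ≤ E {v} (X v) + β := by
    intro v hv
    obtain ⟨c, hc, π, hπ⟩ := hcen v hv
    have hb : ∀ a ∈ S.powerset, (if v ∈ T a then w a else 0) ≤
        q a v + E (insert v S) (fun z => I a z * D c v π z) := by
      intro a _
      have hwa : E (insert v S) (I a) = w a :=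
        hE.cons _ _ (subset_insert _ _) (hcard1 v) _ (fun z => hIS a z _ (Subset.refl _))
      have hq0 : 0 ≤ q a v := hE.nonneg _ _ fun z _ =>
        mul_nonneg (hI0 a z) (by unfold X; split_ifs <;> norm_num)
      have hqw : q a v ≤ w a := by
        rw [← hwa]
        refine hE.mono _ fun z _ => ?_
        have h3 := hI0 a z
        have : X v z ≤ 1 := by unfold X; split_ifs <;> norm_num
        nlinarith
      -- `I a * D` is `I a * X v` or `I a * (1 - X v)`
      have hD : (E (insert v S) (fun z => I a z * D c v π z) = q a v) ∨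
          (E (insert v S) (fun z => I a z * D c v π z) = w a - q a v) := by
        have hcz : ∀ z, z ∩ S = a → (c ∈ z ↔ c ∈ a) := by
          intro z hz
          rw [← hz]
          simp [hc]
        by_cases hpr : (xor (decide (c ∈ a)) true) = π
        · right
          have : E (insert v S) (fun z => I a z * D c v π z)
              = E (insert v S) (fun z => I a z + (-1) * (I a z * X v z)) := by
            refine hE.congr' _ fun z _ => ?_
            simp only [I]
            split_ifs with hz
            · have h5 := hcz z hz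
              unfold D X
              by_cases hvz : v ∈ z
              · have : (xor (decide (c ∈ z)) (decide (v ∈ z))) = π := by
                  rw [← hpr]; simp [h5, hvz]
                rw [if_pos this, if_pos hvz]; norm_num
              · have : (xor (decide (c ∈ z)) (decide (v ∈ z))) ≠ π := by
                  rw [← hpr]; simp [h5, hvz]
                rw [if_neg this, if_neg hvz]; norm_num
            · simp
          rw [this, hE.add _ (I a) (fun z => (-1) * (I a z * X v z)), hE.smul, hwa]
          ring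
        · left
          refine hE.congr' _ fun z _ => ?_
          simp only [I]
          split_ifs with hz
          · have h5 := hcz z hz
            unfold D X
            by_cases hvz : v ∈ z
            · have : (xor (decide (c ∈ z)) (decide (v ∈ z))) ≠ π := by
                intro h; apply hpr; rw [← h]; simp [h5, hvz]
              rw [if_neg this, if_pos hvz]
            · have : (xor (decide (c ∈ z)) (decide (v ∈ z))) = π := by
                revert hpr
                simp only [h5, hvz, decide_false]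
                cases π <;> cases (decide (c ∈ a)) <;> simp
              rw [if_pos this, if_neg hvz]
          · simp
      by_cases hvT : v ∈ T a
      · rw [if_pos hvT]
        have h6 := (mem_filter.mp hvT).2
        rcases hD with h | h <;> rw [h] <;> linarith
      · rw [if_neg hvT]
        rcases hD with h | h <;> rw [h] <;> linarith
    refine (Finset.sum_le_sum hb).trans ?_
    rw [Finset.sum_add_distrib]
    have e1 : ∑ a ∈ S.powerset, q a v = E {v} (X v) := by
      simp only [q]
      rw [← hE.sum (insert v S) S.powerset (fun a z => I a z * X v z)]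
      have : (fun z => ∑ a ∈ S.powerset, I a z * X v z) = X v := by
        funext z
        rw [← Finset.sum_mul, hsumI, one_mul]
      rw [this]
      exact hE.X_cons (mem_insert_self _ _) (hcard1 v)
    have e2 : ∑ a ∈ S.powerset, E (insert v S) (fun z => I a z * D c v π z)
        = E {c, v} (D c v π) := by
      rw [← hE.sum (insert v S) S.powerset (fun a z => I a z * D c v π z)]
      have : (fun z => ∑ a ∈ S.powerset, I a z * D c v π z) = D c v π := by
        funext z
        rw [← Finset.sum_mul, hsumI, one_mul]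
      rw [this]
      exact hE.D_cons (mem_insert_of_mem hc) (mem_insert_self _ _) (hcard1 v) π
    rw [e1, e2]
    linarith
  by_contra hcon
  push Not at hcon
  set R : ℝ := ∑ v ∈ M, (E {v} (X v) + β) with hR
  have hbig : ∀ a, R < ((T a).card : ℝ) := fun a => hcon (T a) (filter_subset _ _) (hcov a)
  have h1 : ∑ a ∈ S.powerset, w a * ((T a).card : ℝ) ≤ R := by
    have : ∀ a, w a * ((T a).card : ℝ) = ∑ v ∈ M, if v ∈ T a then w a else 0 := by
      intro a
      rw [Finset.sum_ite_mem, inter_eq_right.mpr (filter_subset _ _), sum_const, nsmul_eq_mul,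
        mul_comm]
    simp_rw [this]
    rw [Finset.sum_comm]
    exact Finset.sum_le_sum hcost
  have h2 : ∑ a ∈ S.powerset, w a * ((T a).card : ℝ) - R
      = ∑ a ∈ S.powerset, w a * (((T a).card : ℝ) - R) := by
    simp_rw [mul_sub]
    rw [Finset.sum_sub_distrib, ← Finset.sum_mul, hsumw, one_mul]
  have h3 : 0 < ∑ a ∈ S.powerset, w a * (((T a).card : ℝ) - R) := by
    obtain ⟨a, ha, hwa⟩ : ∃ a ∈ S.powerset, 0 < w a := by
      by_contra hno
      push Not at hno
      have : ∑ a ∈ S.powerset, w a ≤ 0 := Finset.sum_nonpos hno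
      linarith
    refine Finset.sum_pos' (fun b _ => mul_nonneg (hw0 b) (by linarith [hbig b])) ⟨a, ha, ?_⟩
    exact mul_pos hwa (by linarith [hbig a])
  linarith

/-- the middle part: vertices of mass close to `1/2`. -/
lemma mid (hE : Local G k E) (hk : 3 ≤ k) {τ β : ℝ} (hτ : 0 ≤ τ) {M : Finset V} {l g : ℕ}
    (hg : 1 ≤ g) (hM : ∀ u ∈ M, 1 / 2 - τ ≤ E {u} (X u) ∧ E {u} (X u) ≤ 1 / 2 + τ)
    (hβ0 : β ≤ 1 / 2 + τ) (hβ : ((g : ℝ) - 1) * (1 / 2 + τ - β) ≤ β)
    (hβ2 : 4 * τ * l ≤ β) (hlk : g ^ l ≤ k) (hn : Fintype.card V ≤ g ^ l * (k - 2)) :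
    ∀ (m : ℕ) (M' : Finset V), M' ⊆ M → M'.card = m → ∃ T ⊆ M',
      (∀ u ∈ M', ∀ v ∈ M', G.Adj u v → u ∈ T ∨ v ∈ T) ∧
      (T.card : ℝ) ≤ ∑ v ∈ M', (E {v} (X v) + β) := by
  classical
  intro m
  induction m using Nat.strong_induction_on with
  | _ m ih =>
  intro M' hM' hm
  by_cases hA : ∃ v ∈ M', ∃ j, (ball G M' v j).card ≤ g ^ l ∧
      (ball G M' v (j + 1)).card < g * (ball G M' v j).card
  · obtain ⟨v, hv, j, hj1, hj2⟩ := hA
    set B := ball G M' v j with hB
    set B1 := ball G M' v (j + 1) with hB1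
    have hBB1 : B ⊆ B1 := ball_mono j
    have hB1M : B1 ⊆ M' := ball_subset hv (j + 1)
    have hvB1 : v ∈ B1 := mem_ball_self (j + 1)
    obtain ⟨T1, hT1, hc1, hs1⟩ := hE.exact B (hj1.trans hlk)
    obtain ⟨T2, hT2, hc2, hs2⟩ := ih (M' \ B1).card
      (by rw [← hm]; exact card_lt_card (sdiff_ssubset hB1M ⟨v, hvB1⟩)) (M' \ B1)
      (sdiff_subset.trans hM') rfl
    refine ⟨T1 ∪ (B1 \ B) ∪ T2, ?_, ?_, ?_⟩
    · refine union_subset (union_subset ?_ ?_) ?_
      · exact hT1.trans (hBB1.trans hB1M)
      · exact sdiff_subset.trans hB1M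
      · exact hT2.trans sdiff_subset
    · have hstep : ∀ a ∈ B, ∀ b ∈ M', G.Adj a b → b ∈ B1 := by
        intro a ha b hb hab
        exact mem_union_right _ (mem_filter.mpr ⟨hb, a, ha, hab⟩)
      intro a ha b hb hab
      simp only [mem_union, mem_sdiff]
      by_cases haB : a ∈ B
      · by_cases hbB : b ∈ B
        · rcases hc1 a haB b hbB hab with h | h
          · left; left; left; exact h
          · right; left; left; exact h
        · right; left; right
          exact ⟨hstep a haB b hb hab, hbB⟩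
      · by_cases haB1 : a ∈ B1
        · left; left; right; exact ⟨haB1, haB⟩
        · by_cases hbB : b ∈ B
          · exact absurd (hstep b hbB a ha hab.symm) haB1
          · by_cases hbB1 : b ∈ B1
            · right; left; right; exact ⟨hbB1, hbB⟩
            · rcases hc2 a (mem_sdiff.mpr ⟨ha, haB1⟩) b (mem_sdiff.mpr ⟨hb, hbB1⟩) hab with h | h
              · left; right; exact h
              · right; right; exact h
    · have hcard : ((T1 ∪ (B1 \ B) ∪ T2).card : ℝ) ≤ T1.card + (B1 \ B).card + T2.card := by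
        have h1 := card_union_le (T1 ∪ (B1 \ B)) T2
        have h2 := card_union_le T1 (B1 \ B)
        exact_mod_cast (by omega : (T1 ∪ (B1 \ B) ∪ T2).card ≤ T1.card + (B1 \ B).card + T2.card)
      have hsplit : ∑ v ∈ M', (E {v} (X v) + β) = ∑ v ∈ B, (E {v} (X v) + β)
          + ∑ v ∈ B1 \ B, (E {v} (X v) + β) + ∑ v ∈ M' \ B1, (E {v} (X v) + β) := by
        rw [← Finset.sum_sdiff hB1M, ← Finset.sum_sdiff hBB1]
        ring
      have hbd : ((B1 \ B).card : ℝ) ≤ ((g : ℝ) - 1) * B.card := by
        have h1 := card_sdiff_add_card_eq_card hBB1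
        have h1' : ((B1 \ B).card : ℝ) + B.card = B1.card := by exact_mod_cast h1
        have h2 : (B1.card : ℝ) ≤ g * B.card := by exact_mod_cast hj2.le
        linarith
      have h3 : ((B1 \ B).card : ℝ) * (1 / 2 - τ + β) ≤ ∑ v ∈ B1 \ B, (E {v} (X v) + β) := by
        rw [← nsmul_eq_mul]
        refine Finset.card_nsmul_le_sum _ _ _ fun u hu => ?_
        have := (hM u (hM' (hB1M (mem_sdiff.mp hu).1))).1
        linarith
      have h4 : ∑ v ∈ B, (E {v} (X v) + β) = ∑ v ∈ B, E {v} (X v) + B.card * β := by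
        rw [Finset.sum_add_distrib, sum_const, nsmul_eq_mul]
      have h5 : ((B1 \ B).card : ℝ) ≤ (B1 \ B).card * (1 / 2 - τ + β) + B.card * β := by
        have h6 : ((B1 \ B).card : ℝ) * (1 / 2 + τ - β) ≤
            ((g : ℝ) - 1) * B.card * (1 / 2 + τ - β) :=
          mul_le_mul_of_nonneg_right hbd (by linarith)
        have h7 : (B.card : ℝ) * (((g : ℝ) - 1) * (1 / 2 + τ - β)) ≤ B.card * β :=
          mul_le_mul_of_nonneg_left hβ (Nat.cast_nonneg _)
        linarith
      rw [hsplit, h4]
      linarith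
  · push Not at hA
    have hgrow : ∀ v ∈ M', g ^ l ≤ (ball G M' v l).card := by
      intro v hv
      have : ∀ j, j ≤ l → g ^ j ≤ (ball G M' v j).card := by
        intro j
        induction j with
        | zero => intro _; simp [ball]
        | succ j ihj =>
          intro hjl
          have h1 := ihj (by omega)
          by_cases hc : (ball G M' v j).card ≤ g ^ l
          · have h2 := hA v hv j hc
            rw [pow_succ, mul_comm]
            exact (Nat.mul_le_mul_left g h1).trans h2
          · have h2 := card_le_card (ball_mono (G := G) (M := M') (v := v) j)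
            have h3 : g ^ (j + 1) ≤ g ^ l := Nat.pow_le_pow_right hg hjl
            omega
      exact this l le_rfl
    obtain ⟨S, hS, hmax⟩ := (M'.powerset.filter fun S : Finset V =>
        (S : Set V).PairwiseDisjoint fun c => ball G M' c l).exists_max_image (fun S => S.card)
      ⟨∅, by simp⟩
    simp only [mem_filter, mem_powerset] at hS hmax
    have hScard : S.card * g ^ l ≤ Fintype.card V := by
      calc S.card * g ^ l = ∑ _c ∈ S, g ^ l := by rw [sum_const, smul_eq_mul]
        _ ≤ ∑ c ∈ S, (ball G M' c l).card := Finset.sum_le_sum fun c hc => hgrow c (hS.1 hc)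
        _ = (S.biUnion fun c => ball G M' c l).card := (card_biUnion hS.2).symm
        _ ≤ Fintype.card V := card_le_univ _
    have hSk : S.card + 2 ≤ k := by
      have h1 : S.card * g ^ l ≤ (k - 2) * g ^ l := by
        rw [mul_comm (k - 2)]
        exact hScard.trans hn
      have := Nat.le_of_mul_le_mul_right h1 (by positivity)
      omega
    refine round hE M' S hSk β fun v hv => ?_
    obtain ⟨c, hc, y, hyc, hyv⟩ : ∃ c ∈ S, ∃ y, y ∈ ball G M' c l ∧ y ∈ ball G M' v l := by
      by_contra hno
      push Not at hno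
      have hvS : v ∉ S := fun h => hno v h v (mem_ball_self l) (mem_ball_self l)
      have h1 := hmax (insert v S) ⟨insert_subset hv hS.1, by
        rw [coe_insert, Set.pairwiseDisjoint_insert_of_notMem (by simpa using hvS)]
        refine ⟨hS.2, fun c hc => ?_⟩
        rw [Finset.disjoint_left]
        intro y h1 h2
        exact hno c hc y h2 h1⟩
      rw [card_insert_of_notMem hvS] at h1
      omega
    have hMu : ∀ u ∈ M', E {u} (X u) ≤ 1 / 2 + τ := fun u hu => (hM u (hM' hu)).2
    obtain ⟨π, hπ⟩ := ball_err hE hk hτ hMu (hS.1 hc) l y hyc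
    obtain ⟨ρ, hρ⟩ := ball_err hE hk hτ hMu hv l y hyv
    refine ⟨c, hc, xor π ρ, ?_⟩
    have h1 := hE.err_tri hk c y v π ρ
    rw [Local.err_symm (E := E) v y] at hρ
    linarith

/-- rounding local distributions of level `k`: the whole graph. -/
theorem round_all (hE : Local G k E) (hk : 3 ≤ k) {l g : ℕ} (hl : 1 ≤ l) (hg : 1 ≤ g)
    (hgl : g ≤ 2 * l) (hlk : g ^ l ≤ k) (hn : Fintype.card V ≤ g ^ l * (k - 2)) :
    ∃ T : Finset V, (∀ u v, G.Adj u v → u ∈ T ∨ v ∈ T) ∧
      (8 * l + 1 : ℝ) * T.card ≤ 16 * l * ∑ v : V, E {v} (X v) := by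
  classical
  have hlR : (1 : ℝ) ≤ l := by exact_mod_cast hl
  set τ : ℝ := 1 / (16 * l) with hτ
  have hτ0 : 0 < τ := by positivity
  have hτl : τ * l = 1 / 16 := by rw [hτ]; field_simp
  have hτ1 : τ ≤ 1 / 16 := by nlinarith
  have hx0 : ∀ v, 0 ≤ E {v} (X v) := fun v => hE.nonneg _ _ fun z _ => by
    unfold X; split_ifs <;> norm_num
  have hedge : ∀ u v, G.Adj u v → 1 ≤ E {u} (X u) + E {v} (X v) := by
    intro u v huv
    have h1 := hE.err_edge (by omega) huv
    have h2 : 0 ≤ E {u, v} (D u v true) := hE.nonneg _ _ fun z _ => by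
      unfold D; split_ifs <;> norm_num
    linarith
  let Hi : Finset V := univ.filter fun v => 1 / 2 + τ ≤ E {v} (X v)
  let Mi : Finset V := univ.filter fun v => 1 / 2 - τ < E {v} (X v) ∧ E {v} (X v) < 1 / 2 + τ
  obtain ⟨T, hT, hTc, hTs⟩ := mid hE hk (τ := τ) (β := 1 / 2 - 3 * τ) hτ0.le (M := Mi) (l := l) (g := g) hg
    (fun u hu => by
      have := (mem_filter.mp hu).2
      exact ⟨this.1.le, this.2.le⟩)
    (by linarith)
    (by
      have hgR : (g : ℝ) ≤ 2 * l := by exact_mod_cast hgl
      have h1 : ((g : ℝ) - 1) * (4 * τ) ≤ (2 * l - 1) * (4 * τ) :=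
        mul_le_mul_of_nonneg_right (by linarith) (by linarith)
      have h2 : ((2 * l - 1 : ℝ)) * (4 * τ) = 8 * (τ * l) - 4 * τ := by ring
      rw [h2, hτl] at h1
      have h3 : (1 : ℝ) / 2 + τ - (1 / 2 - 3 * τ) = 4 * τ := by ring
      rw [h3]
      linarith)
    (by nlinarith) hlk hn Mi.card Mi (Subset.refl _) rfl
  refine ⟨Hi ∪ T, ?_, ?_⟩
  · intro u v huv
    have h1 := hedge u v huv
    simp only [mem_union]
    by_cases hu : u ∈ Hi
    · left; left; exact hu
    · by_cases hv : v ∈ Hi
      · right; left; exact hv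
      · have hu' : E {u} (X u) < 1 / 2 + τ := by
          by_contra h; exact hu (mem_filter.mpr ⟨mem_univ _, not_lt.mp h⟩)
        have hv' : E {v} (X v) < 1 / 2 + τ := by
          by_contra h; exact hv (mem_filter.mpr ⟨mem_univ _, not_lt.mp h⟩)
        have huM : u ∈ Mi := mem_filter.mpr ⟨mem_univ _, by linarith, hu'⟩
        have hvM : v ∈ Mi := mem_filter.mpr ⟨mem_univ _, by linarith, hv'⟩
        rcases hTc u huM v hvM huv with h | h
        · left; right; exact h
        · right; right; exact h
  · have hcard : ((Hi ∪ T).card : ℝ) ≤ Hi.card + T.card := by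
      exact_mod_cast card_union_le Hi T
    have hHi : (Hi.card : ℝ) * (1 / 2 + τ) ≤ ∑ v ∈ Hi, E {v} (X v) := by
      rw [← nsmul_eq_mul]
      exact Finset.card_nsmul_le_sum _ _ _ fun u hu => (mem_filter.mp hu).2
    have hMi : (Mi.card : ℝ) * (1 / 2 - τ) ≤ ∑ v ∈ Mi, E {v} (X v) := by
      rw [← nsmul_eq_mul]
      refine Finset.card_nsmul_le_sum _ _ _ fun u hu => ?_
      exact (mem_filter.mp hu).2.1.le
    rw [Finset.sum_add_distrib, sum_const, nsmul_eq_mul] at hTs
    have hdisj : Disjoint Hi Mi := by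
      rw [Finset.disjoint_left]
      intro u h1 h2
      have h3 := (mem_filter.mp h1).2
      have h4 := (mem_filter.mp h2).2.2
      linarith
    have hsum : ∑ v ∈ Hi, E {v} (X v) + ∑ v ∈ Mi, E {v} (X v) ≤ ∑ v : V, E {v} (X v) := by
      rw [← Finset.sum_union hdisj]
      exact Finset.sum_le_sum_of_subset_of_nonneg (subset_univ _) fun v _ _ => hx0 v
    set a := ∑ v ∈ Hi, E {v} (X v) with ha
    set b := ∑ v ∈ Mi, E {v} (X v) with hb
    have hb0 : 0 ≤ b := Finset.sum_nonneg fun v _ => hx0 v
    have h6 : (8 * l + 1 : ℝ) * Hi.card ≤ 16 * l * a := by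
      have : (8 * l + 1 : ℝ) = 16 * l * (1 / 2 + τ) := by
        have : (16 : ℝ) * l * τ = 1 := by nlinarith
        nlinarith
      rw [this]
      nlinarith
    have h7 : (8 * l + 1 : ℝ) * T.card ≤ 16 * l * b := by
      have hq : (0 : ℝ) < 1 / 2 - τ := by linarith
      -- `(1/2 - τ) |T| ≤ (1 - 4 τ) b`
      have h8 : (1 / 2 - τ) * (T.card : ℝ) ≤ (1 - 4 * τ) * b := by
        have h9 : (1 / 2 - τ) * (T.card : ℝ) ≤ (1 / 2 - τ) * (b + Mi.card * (1 / 2 - 3 * τ)) :=
          mul_le_mul_of_nonneg_left hTs hq.le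
        have h10 : (Mi.card : ℝ) * (1 / 2 - τ) * (1 / 2 - 3 * τ) ≤ b * (1 / 2 - 3 * τ) :=
          mul_le_mul_of_nonneg_right hMi (by linarith)
        nlinarith
      have h9 : (1 / 2 + τ) * (1 - 4 * τ) ≤ 1 / 2 - τ := by nlinarith
      have h10 : (1 / 2 - τ) * ((1 / 2 + τ) * (T.card : ℝ)) ≤ (1 / 2 - τ) * b := by
        calc (1 / 2 - τ) * ((1 / 2 + τ) * (T.card : ℝ))
            = (1 / 2 + τ) * ((1 / 2 - τ) * (T.card : ℝ)) := by ring
          _ ≤ (1 / 2 + τ) * ((1 - 4 * τ) * b) := mul_le_mul_of_nonneg_left h8 (by linarith)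
          _ = ((1 / 2 + τ) * (1 - 4 * τ)) * b := by ring
          _ ≤ (1 / 2 - τ) * b := mul_le_mul_of_nonneg_right h9 hb0
      have h11 : (1 / 2 + τ) * (T.card : ℝ) ≤ b := le_of_mul_le_mul_left h10 hq
      have h12 : (8 * l + 1 : ℝ) = 16 * l * (1 / 2 + τ) := by
        have : (16 : ℝ) * l * τ = 1 := by nlinarith
        nlinarith
      rw [h12, mul_assoc]
      exact mul_le_mul_of_nonneg_left h11 (by linarith)
    have h11 : (8 * l + 1 : ℝ) * ((Hi ∪ T).card : ℝ) ≤ (8 * l + 1 : ℝ) * (Hi.card + T.card) :=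
      mul_le_mul_of_nonneg_left hcard (by linarith)
    have h12 : 16 * (l : ℝ) * (a + b) ≤ 16 * l * ∑ v : V, E {v} (X v) :=
      mul_le_mul_of_nonneg_left hsum (by linarith)
    linarith

end Pool.Agent.Run7.h881.VL
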